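import Pool.Agent.helper33.GR2.Spec

/-!
# Project g2, module AEX: the critical orbit does not return exponentially fast
-/

set_option autoImplicit false

open Complex Metric Set Filter Topology MeasureTheory
open MPS (om)
open PPS (pre TT fd)
open XPS (Df er dens tau)
open Pool.Agent.helper16.Multibrot

noncomputable section

namespace GR

theorem AEX_sq (a b : ℂ) (ha : ‖a‖ ≤ 3) (hb : ‖b‖ ≤ 3) : ‖a ^ 2 - b ^ 2‖ ≤ 6 * ‖a - b‖ := by
  have h : a ^ 2 - b ^ 2 = (a + b) * (a - b) := by ring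
  rw [h, norm_mul]
  apply mul_le_mul_of_nonneg_right _ (norm_nonneg _)
  exact (norm_add_le _ _).trans (by linarith)

theorem AEX (hBDM : BDM_stmt) : AEX_stmt := by
  intro c hc hhyp m hm
  by_contra hcon
  push Not at hcon
  set η : ℝ := (1 / 6 : ℝ) ^ m / 4 with hη
  have hη0 : 0 < η := by positivity
  have h6 : (6 : ℝ) ^ m * η = 1 / 4 := by
    rw [hη, one_div, inv_pow]
    field_simp
  have hη1 : η ≤ 1 / 24 := by
    have : (1 / 6 : ℝ) ^ m ≤ (1 / 6 : ℝ) ^ 1 := pow_le_pow_of_le_one (by norm_num) (by norm_num) hm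
    rw [hη]
    linarith
  obtain ⟨m', rfl⟩ := Nat.exists_eq_add_of_le' hm
  have h6' : (6 : ℝ) ^ m' * η = 1 / 24 := by
    rw [pow_succ] at h6
    linarith
  let f : ℂ → ℂ := fun w => w ^ 2 + c
  have hZ : ∀ j, Z 2 c j = f^[j] 0 := fun j => rfl
  have hZ2 : ∀ j, ‖f^[j] 0‖ ≤ 2 := fun j => hBDM 2 c le_rfl hc j
  -- first estimate
  have hfst : ∀ k, k ≤ m' → ∀ z : ℂ, ‖z‖ ≤ 2 * η →
      ‖f^[k + 1] z - f^[k + 1] 0‖ ≤ 6 ^ k * ‖z‖ ^ 2 ∧ ‖f^[k + 1] z‖ ≤ 3 := by
    intro k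
    induction k with
    | zero =>
      intro _ z hz
      have h1 : f^[0 + 1] z - f^[0 + 1] 0 = z ^ 2 := by
        show z ^ 2 + c - (0 ^ 2 + c) = z ^ 2
        ring
      have hz2 : ‖z‖ ^ 2 ≤ 1 := by
        have := norm_nonneg z
        nlinarith
      have h2 : ‖f^[0 + 1] z - f^[0 + 1] 0‖ ≤ 6 ^ 0 * ‖z‖ ^ 2 := by
        rw [h1, norm_pow]
        simp
      refine ⟨h2, ?_⟩
      have h3 := norm_add_le (f^[0 + 1] z - f^[0 + 1] 0) (f^[0 + 1] 0)
      rw [sub_add_cancel] at h3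
      have h4 := hZ2 (0 + 1)
      have h5 : ‖f^[0 + 1] z - f^[0 + 1] 0‖ ≤ 1 := h2.trans (by simpa using hz2)
      linarith
    | succ k ih =>
      intro hk z hz
      obtain ⟨ih1, ih2⟩ := ih (by omega) z hz
      have h1 : f^[k + 1 + 1] z - f^[k + 1 + 1] 0 = (f^[k + 1] z) ^ 2 - (f^[k + 1] 0) ^ 2 := by
        rw [Function.iterate_succ_apply' f (k + 1) z, Function.iterate_succ_apply' f (k + 1) 0]
        show (f^[k + 1] z) ^ 2 + c - ((f^[k + 1] 0) ^ 2 + c) = _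
        ring
      have h2 : ‖f^[k + 1 + 1] z - f^[k + 1 + 1] 0‖ ≤ 6 ^ (k + 1) * ‖z‖ ^ 2 := by
        rw [h1]
        refine (AEX_sq _ _ ih2 ((hZ2 _).trans (by norm_num))).trans ?_
        rw [pow_succ]
        nlinarith
      refine ⟨h2, ?_⟩
      have h3 := norm_add_le (f^[k + 1 + 1] z - f^[k + 1 + 1] 0) (f^[k + 1 + 1] 0)
      rw [sub_add_cancel] at h3
      have h4 := hZ2 (k + 1 + 1)
      have h5 : (6 : ℝ) ^ (k + 1) * ‖z‖ ^ 2 ≤ 1 := by
        have h6a : (6 : ℝ) ^ (k + 1) ≤ 6 ^ m' := pow_le_pow_right₀ (by norm_num) hk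
        have h6b : ‖z‖ ^ 2 ≤ (2 * η) ^ 2 := pow_le_pow_left₀ (norm_nonneg _) hz 2
        calc (6 : ℝ) ^ (k + 1) * ‖z‖ ^ 2 ≤ 6 ^ m' * (2 * η) ^ 2 := by gcongr
          _ = (6 ^ m' * η) * (4 * η) := by ring
          _ ≤ 1 := by rw [h6']; linarith
      linarith
  -- second estimate
  have hsnd : ∀ k, k ≤ m' → ∀ z w : ℂ, ‖z‖ ≤ 2 * η → ‖w‖ ≤ 2 * η →
      ‖f^[k + 1] z - f^[k + 1] w‖ ≤ 6 ^ k * (4 * η) * ‖z - w‖ := by
    intro k
    induction k with
    | zero =>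
      intro _ z w hz hw
      have h1 : f^[0 + 1] z - f^[0 + 1] w = (z + w) * (z - w) := by
        show z ^ 2 + c - (w ^ 2 + c) = _
        ring
      rw [h1, norm_mul, pow_zero, one_mul]
      apply mul_le_mul_of_nonneg_right _ (norm_nonneg _)
      exact (norm_add_le _ _).trans (by linarith)
    | succ k ih =>
      intro hk z w hz hw
      have ih' := ih (by omega) z w hz hw
      have h1 : f^[k + 1 + 1] z - f^[k + 1 + 1] w = (f^[k + 1] z) ^ 2 - (f^[k + 1] w) ^ 2 := by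
        rw [Function.iterate_succ_apply' f (k + 1) z, Function.iterate_succ_apply' f (k + 1) w]
        show (f^[k + 1] z) ^ 2 + c - ((f^[k + 1] w) ^ 2 + c) = _
        ring
      rw [h1]
      refine (AEX_sq _ _ (hfst k (by omega) z hz).2 (hfst k (by omega) w hw).2).trans ?_
      rw [pow_succ]
      nlinarith
  have hlip : ∀ z w : ℂ, ‖z‖ ≤ 2 * η → ‖w‖ ≤ 2 * η →
      ‖f^[m' + 1] z - f^[m' + 1] w‖ ≤ 1 / 6 * ‖z - w‖ := by
    intro z w hz hw
    have h1 := hsnd m' le_rfl z w hz hw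
    have h2 : (6 : ℝ) ^ m' * (4 * η) = 1 / 6 := by
      calc (6 : ℝ) ^ m' * (4 * η) = 4 * (6 ^ m' * η) := by ring
        _ = 1 / 6 := by rw [h6']; norm_num
    rw [h2] at h1
    exact h1
  have hmap : ∀ z : ℂ, ‖z‖ ≤ 2 * η → ‖f^[m' + 1] z‖ ≤ 3 / 2 * η := by
    intro z hz
    have h1 := (hlip z 0 hz (by simp; positivity))
    rw [sub_zero] at h1
    have h3 := norm_add_le (f^[m' + 1] z - f^[m' + 1] 0) (f^[m' + 1] 0)
    rw [sub_add_cancel] at h3
    have h4 : ‖f^[m' + 1] 0‖ < η := hcon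
    linarith
  -- the fixed point
  have hmaps : MapsTo (f^[m' + 1]) (closedBall 0 (2 * η)) (closedBall 0 (2 * η)) := by
    intro z hz
    rw [mem_closedBall_zero_iff] at hz ⊢
    have := hmap z hz
    linarith
  have hcontr : ContractingWith (1 / 6 : NNReal) (hmaps.restrict (f^[m' + 1]) _ _) := by
    refine ⟨by
      rw [← NNReal.coe_lt_coe]
      push_cast
      norm_num, ?_⟩
    apply LipschitzWith.of_dist_le_mul
    rintro ⟨z, hz⟩ ⟨w, hw⟩
    rw [mem_closedBall_zero_iff] at hz hw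
    have h1 := hlip z w hz hw
    rw [Subtype.dist_eq, Subtype.dist_eq, dist_eq_norm, dist_eq_norm]
    push_cast
    exact h1
  obtain ⟨y, hy, hyfix, -⟩ := ContractingWith.exists_fixedPoint' (isClosed_closedBall.isComplete)
    hmaps hcontr (x := (0 : ℂ)) (by simp; positivity) (edist_ne_top _ _)
  rw [mem_closedBall_zero_iff] at hy
  have hyfix' : f^[m' + 1] y = y := hyfix
  have hylt : ‖y‖ < 2 * η := by
    have := hmap y hy
    rw [hyfix'] at this
    linarith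
  -- the derivative
  have hdiff : Differentiable ℂ (f^[m' + 1]) := by
    have hf : Differentiable ℂ f := (differentiable_id.pow 2).add_const c
    exact hf.iterate _
  have hder := (hdiff y).hasDerivAt
  have hnb : ball (0 : ℂ) (2 * η) ∈ 𝓝 y := isOpen_ball.mem_nhds (mem_ball_zero_iff.2 hylt)
  have hLip : LipschitzOnWith (1 / 6 : NNReal) (f^[m' + 1]) (ball 0 (2 * η)) := by
    apply LipschitzOnWith.of_dist_le_mul
    intro z hz w hw
    rw [mem_ball_zero_iff] at hz hw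
    have h1 := hlip z w hz.le hw.le
    rw [dist_eq_norm, dist_eq_norm]
    push_cast
    exact h1
  have hle : ‖deriv (f^[m' + 1]) y‖ ≤ (1 / 6 : NNReal) := hder.le_of_lipschitzOn hnb hLip
  apply hhyp
  refine ⟨y, m' + 1, Nat.succ_pos _, hyfix', lt_of_le_of_lt hle ?_⟩
  push_cast
  norm_num

end GR
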